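import Mathlib

/-!
MP_61ed4e_co: interface between the four parts (K kernel computation, R1 sequences to diagrams,
R2 diagrams to words, G game assembly).  Letters: `true` = D (down), `false` = R (right).
-/

namespace R464.MG

/-- The moves of the word game. -/
def Mv (w w' : List Bool) : Prop :=
  (∃ (u v : List Bool) (k : ℕ), 1 ≤ k ∧ w = u ++ true :: (List.replicate k false ++ v) ∧
      w' = u ++ (List.replicate k false ++ true :: v) ∧ (true ∈ v ∨ k = 1)) ∨
  (∃ (u v : List Bool) (k : ℕ), 1 ≤ k ∧ w = u ++ (List.replicate k true ++ false :: v) ∧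
      w' = u ++ false :: (List.replicate k true ++ v) ∧ (false ∈ u ∨ k = 1))

/-- Words of the `23 × 9` box. -/
def Wd (w : List Bool) : Prop := w.length = 32 ∧ w.count true = 9

/-- The one-cell position. -/
def onecell : List Bool :=
  List.replicate 8 true ++ false :: true :: List.replicate 22 false

/-- K (kernel computation): the statement to be proved by the computation half. -/
def StmtK : Prop :=
  ∃ S : List Bool → Prop, (∀ w, Wd w → (S w ↔ ∀ w', Mv w w' → ¬ S w')) ∧ ¬ S onecell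

/-- `x` (the last entry of `l ++ [x]`) ends an increasing sublist of length `i + 1` and a decreasing
one of length `j + 1`, for some prefix `l ++ [x]` of `L`. -/
def H (L : List ℚ) (i j : ℕ) : Prop :=
  ∃ (l : List ℚ) (x : ℚ), (l ++ [x]) <+: L ∧
    (∃ s : List ℚ, s.Sublist l ∧ s.length = i ∧ (s ++ [x]).Pairwise (· < ·)) ∧
    (∃ s : List ℚ, s.Sublist l ∧ s.length = j ∧ (s ++ [x]).Pairwise (· > ·))

/-- The legal points of a diagram. -/
def Legal (D : ℕ → ℕ → Prop) (i j : ℕ) : Prop :=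
  ¬ D i j ∧ (1 ≤ i → D (i - 1) 0) ∧ (1 ≤ j → D 0 (j - 1)) ∧
    (1 ≤ i → 1 ≤ j → D i (j - 1) ∨ D (i - 1) j)

/-- The game is over. -/
def Over (a d : ℕ) (L : List ℚ) : Prop :=
  (∃ s : List ℚ, s.Sublist L ∧ s.length = a ∧ s.Pairwise (· < ·)) ∨
    (∃ s : List ℚ, s.Sublist L ∧ s.length = d ∧ s.Pairwise (· > ·))

/-- R1a: playing `t` adds a rectangle at a legal point. -/
def StmtR1a : Prop :=
  ∀ (L : List ℚ) (t : ℚ), L.Nodup → t ∉ L →
    ∃ i j, Legal (H L) i j ∧ ∀ i' j', H (L ++ [t]) i' j' ↔ (H L i' j' ∨ (i' ≤ i ∧ j' ≤ j))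

/-- R1b: every legal point can be played. -/
def StmtR1b : Prop :=
  ∀ (L : List ℚ) (i j : ℕ), L.Nodup → Legal (H L) i j →
    ∃ t : ℚ, t ∉ L ∧ ∀ i' j', H (L ++ [t]) i' j' ↔ (H L i' j' ∨ (i' ≤ i ∧ j' ≤ j))

/-- R1c: the game is over iff the diagram has a long first row or column. -/
def StmtR1c : Prop :=
  ∀ (L : List ℚ) (a d : ℕ), 1 ≤ a → 1 ≤ d → (Over a d L ↔ (H L (a - 1) 0 ∨ H L 0 (d - 1)))

/-- Height of column `i` of the diagram of the word `w` : number of D's after the `(i+1)`-st R. -/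
def col : List Bool → ℕ → ℕ
  | [], _ => 0
  | true :: w, i => col w i
  | false :: w, 0 => w.count true
  | false :: w, i + 1 => col w i

/-- The diagram of a word. -/
def Hw (w : List Bool) (i j : ℕ) : Prop := j < col w i

/-- R2a: a legal point of the diagram inside the box is a move of the word. -/
def StmtR2a : Prop :=
  ∀ (w : List Bool) (i j : ℕ), Wd w → Legal (Hw w) i j → i < 23 → j < 9 →
    ∃ w', Mv w w' ∧ Wd w' ∧ ∀ i' j', Hw w' i' j' ↔ (Hw w i' j' ∨ (i' ≤ i ∧ j' ≤ j))

/-- R2b: a move of the word is a legal point of the diagram inside the box. -/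
def StmtR2b : Prop :=
  ∀ (w w' : List Bool), Wd w → Mv w w' →
    Wd w' ∧ ∃ i j, Legal (Hw w) i j ∧ i < 23 ∧ j < 9 ∧
      ∀ i' j', Hw w' i' j' ↔ (Hw w i' j' ∨ (i' ≤ i ∧ j' ≤ j))

mutual
/-- The player to move wins. -/
inductive MoverWins (a d : ℕ) : List ℚ → Prop
  | now (L : List ℚ) (x : ℚ) : x ∉ L → Over a d (L ++ [x]) → MoverWins a d L
  | later (L : List ℚ) (x : ℚ) : x ∉ L → ¬ Over a d (L ++ [x]) → MoverLoses a d (L ++ [x]) →
      MoverWins a d L
/-- The player to move loses. -/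
inductive MoverLoses (a d : ℕ) : List ℚ → Prop
  | mk (L : List ℚ) : (∀ x, x ∉ L → ¬ Over a d (L ++ [x])) →
      (∀ x, x ∉ L → MoverWins a d (L ++ [x])) → MoverLoses a d L
end

/-- G: final statement (the second player wins the normal game with `a = 25`, `d = 11`). -/
def StmtG : Prop := StmtK → StmtR1a → StmtR1b → StmtR1c → StmtR2a → StmtR2b → MoverLoses 25 11 []

end R464.MG
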