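import Pool.Agent.R464.MG.Iface

/-!
MP_61ed4e_co: game assembly (part G).
-/

namespace R464.MG

theorem col_le (w : List Bool) : ∀ i, col w i ≤ w.count true := by
  induction w with
  | nil => intro i; simp [col]
  | cons b w ih =>
    intro i
    cases b with
    | true => simp only [col, List.count_cons_self]; exact (ih i).trans (Nat.le_succ _)
    | false =>
      cases i with
      | zero => simp [col]
      | succ i =>
        simp only [col]
        exact (ih i).trans (by simp)

theorem col_eq_zero (w : List Bool) : ∀ i, w.count false ≤ i → col w i = 0 := by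
  induction w with
  | nil => intro i _; simp [col]
  | cons b w ih =>
    intro i hi
    cases b with
    | true => simp only [col]; exact ih i (by simpa using hi)
    | false =>
      cases i with
      | zero => simp at hi
      | succ i =>
        simp only [col]
        exact ih i (by simpa using hi)

theorem count_false {w : List Bool} (hw : Wd w) : w.count false = 23 := by
  have h := List.count_false_add_count_true w
  have h1 := hw.1
  have h2 := hw.2
  omega

theorem measure_lt {w w' : List Bool} (hw' : Wd w') {i j : ℕ} (hi : i < 23)
    (hl : ¬ Hw w i j) (h : ∀ i' j', Hw w' i' j' ↔ (Hw w i' j' ∨ (i' ≤ i ∧ j' ≤ j))) :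
    207 - ∑ k ∈ Finset.range 23, col w' k < 207 - ∑ k ∈ Finset.range 23, col w k := by
  have h1 : ∀ k, col w k ≤ col w' k := by
    intro k
    by_contra hcon
    push Not at hcon
    have h2 : Hw w k (col w' k) := hcon
    have h3 := (h k (col w' k)).mpr (Or.inl h2)
    exact lt_irrefl _ h3
  have h2 : col w i < col w' i := by
    have h3 : Hw w' i j := (h i j).mpr (Or.inr ⟨le_rfl, le_rfl⟩)
    unfold Hw at h3 hl
    omega
  have h3 : ∑ k ∈ Finset.range 23, col w k < ∑ k ∈ Finset.range 23, col w' k :=
    Finset.sum_lt_sum (fun k _ => h1 k) ⟨i, Finset.mem_range.mpr hi, h2⟩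
  have h4 : ∑ k ∈ Finset.range 23, col w' k ≤ ∑ _k ∈ Finset.range 23, 9 :=
    Finset.sum_le_sum fun k _ => by rw [← hw'.2]; exact col_le w' k
  simp at h4
  omega

theorem not_over {w : List Bool} (hw : Wd w) (h1c : StmtR1c) {L : List ℚ}
    (hL : ∀ i j, H L i j ↔ Hw w i j) : ¬ Over 25 11 L := by
  rw [h1c L 25 11 (by norm_num) (by norm_num)]
  rintro (h | h)
  · rw [hL] at h
    unfold Hw at h
    rw [col_eq_zero w 24 (by rw [count_false hw]; norm_num)] at h
    omega
  · rw [hL] at h
    unfold Hw at h
    have := col_le w 0
    rw [hw.2] at this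
    omega

theorem main (S : List Bool → Prop) (hS : ∀ w, Wd w → (S w ↔ ∀ w', Mv w w' → ¬ S w'))
    (h1a : StmtR1a) (h1b : StmtR1b) (h1c : StmtR1c) (h2a : StmtR2a) (h2b : StmtR2b) :
    ∀ (n : ℕ) (w : List Bool), 207 - ∑ k ∈ Finset.range 23, col w k = n → Wd w →
      ∀ L : List ℚ, L.Nodup → (∀ i j, H L i j ↔ Hw w i j) →
        (S w → MoverLoses 25 11 L) ∧ (¬ S w → MoverWins 25 11 L) := by
  intro n
  induction n using Nat.strong_induction_on with
  | _ n ih =>
    intro w hn hw L hL hH
    have hLegal : ∀ i j, Legal (H L) i j ↔ Legal (Hw w) i j := by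
      intro i j
      unfold Legal
      rw [hH, hH, hH, hH, hH]
    constructor
    · intro hSw
      -- the state after a move `x`
      have step : ∀ x, x ∉ L → ¬ Over 25 11 (L ++ [x]) ∧ MoverWins 25 11 (L ++ [x]) := by
        intro x hx
        have hnd : (L ++ [x]).Nodup := by
          rw [List.nodup_append]
          exact ⟨hL, by simp, fun a ha b hb => by
            rw [List.mem_singleton] at hb; rintro rfl; exact hx (hb ▸ ha)⟩
        obtain ⟨i, j, hij, hst⟩ := h1a L x hL hx
        have hij' := (hLegal i j).mp hij
        have hcol0 : col w 0 ≤ 9 := by rw [← hw.2]; exact col_le w 0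
        have hi23 : i ≤ 23 := by
          by_contra hcon
          have h1 : Hw w (i - 1) 0 := hij'.2.1 (by omega)
          unfold Hw at h1
          rw [col_eq_zero w (i - 1) (by rw [count_false hw]; omega)] at h1
          omega
        have hj9 : j ≤ 9 := by
          by_contra hcon
          have h1 : Hw w 0 (j - 1) := hij'.2.2.1 (by omega)
          unfold Hw at h1
          omega
        by_cases hin : i < 23 ∧ j < 9
        · obtain ⟨w', hm, hw', hst'⟩ := h2a w i j hw hij' hin.1 hin.2
          have hH' : ∀ i j, H (L ++ [x]) i j ↔ Hw w' i j := by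
            intro i' j'
            rw [hst, hst', hH]
          have hlt := measure_lt hw' hin.1 hij'.1 hst'
          refine ⟨not_over hw' h1c hH', ?_⟩
          exact (ih _ (hn ▸ hlt) w' rfl hw' (L ++ [x]) hnd hH').2 ((hS w hw).mp hSw w' hm)
        · have hno24 : ¬ H (L ++ [x]) 24 0 := by
            rw [hst, hH]
            rintro (h | h)
            · unfold Hw at h
              rw [col_eq_zero w 24 (by rw [count_false hw]; norm_num)] at h
              omega
            · omega
          have hno10 : ¬ H (L ++ [x]) 0 10 := by
            rw [hst, hH]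
            rintro (h | h)
            · unfold Hw at h; omega
            · omega
          refine ⟨?_, ?_⟩
          · rw [h1c (L ++ [x]) 25 11 (by norm_num) (by norm_num)]
            rintro (h | h)
            · exact hno24 h
            · exact hno10 h
          · have hcase : i = 23 ∨ j = 9 := by omega
            have hfin : ∀ i0 j0, Legal (H (L ++ [x])) i0 j0 →
                ((i0 = 24 ∧ j0 = 0) ∨ (i0 = 0 ∧ j0 = 10)) → MoverWins 25 11 (L ++ [x]) := by
              intro i0 j0 hleg hor
              obtain ⟨t, ht, hst2⟩ := h1b (L ++ [x]) i0 j0 hnd hleg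
              refine MoverWins.now _ t ht ?_
              rw [h1c _ 25 11 (by norm_num) (by norm_num)]
              rcases hor with ⟨rfl, rfl⟩ | ⟨rfl, rfl⟩
              · left; rw [hst2]; right; omega
              · right; rw [hst2]; right; omega
            rcases hcase with rfl | rfl
            · refine hfin 24 0 ⟨hno24, fun _ => ?_, fun h => absurd h (by norm_num),
                fun _ h => absurd h (by norm_num)⟩ (Or.inl ⟨rfl, rfl⟩)
              rw [hst]; right; omega
            · refine hfin 0 10 ⟨hno10, fun h => absurd h (by norm_num), fun _ => ?_,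
                fun h => absurd h (by norm_num)⟩ (Or.inr ⟨rfl, rfl⟩)
              rw [hst]; right; omega
      exact MoverLoses.mk L (fun x hx => (step x hx).1) (fun x hx => (step x hx).2)
    · intro hSw
      rw [hS w hw] at hSw
      push Not at hSw
      obtain ⟨w', hm, hSw'⟩ := hSw
      obtain ⟨hw', i, j, hij, hi, hj, hst'⟩ := h2b w w' hw hm
      obtain ⟨t, ht, hst⟩ := h1b L i j hL ((hLegal i j).mpr hij)
      have hnd : (L ++ [t]).Nodup := by
        rw [List.nodup_append]
        exact ⟨hL, by simp, fun a ha b hb => by
          rw [List.mem_singleton] at hb; rintro rfl; exact ht (hb ▸ ha)⟩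
      have hH' : ∀ i j, H (L ++ [t]) i j ↔ Hw w' i j := by
        intro i' j'
        rw [hst, hst', hH]
      have hlt := measure_lt hw' hi hij.1 hst'
      exact MoverWins.later L t ht (not_over hw' h1c hH')
        ((ih _ (hn ▸ hlt) w' rfl hw' (L ++ [t]) hnd hH').1 hSw')

theorem col_replicate (n : ℕ) : ∀ i, col (List.replicate n false) i = 0 := by
  induction n with
  | zero => intro i; simp [col]
  | succ n ih =>
    intro i
    rw [List.replicate_succ]
    cases i with
    | zero => simp [col, List.count_replicate]
    | succ i => simp only [col]; exact ih i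

theorem hw_onecell (i j : ℕ) : Hw onecell i j ↔ (i = 0 ∧ j = 0) := by
  unfold Hw onecell
  cases i with
  | zero =>
    have : col (List.replicate 8 true ++ false :: true :: List.replicate 22 false) 0 = 1 := by
      decide
    rw [this]; omega
  | succ i =>
    have : col (List.replicate 8 true ++ false :: true :: List.replicate 22 false) (i + 1) = 0 := by
      simp only [List.replicate_succ, List.replicate_zero, List.cons_append, List.nil_append, col]
      cases i with
      | zero => simp [col]
      | succ i =>
        have := col_replicate 22 (i + 1)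
        simpa only [List.replicate_succ, List.replicate_zero] using this
    rw [this]; omega

theorem stmtG : StmtG := by
  rintro ⟨S, hS, hone⟩ h1a h1b h1c h2a h2b
  have hnil : ∀ i j, ¬ H [] i j := by
    rintro i j ⟨l, x, h, -⟩
    have := List.prefix_nil.mp h
    simp at this
  have hH : ∀ x : ℚ, ∀ i j, H [x] i j ↔ Hw onecell i j := by
    intro x i j
    obtain ⟨i0, j0, hleg, hst⟩ := h1a [] x List.nodup_nil (by simp)
    have hi0 : i0 = 0 := by
      by_contra hcon
      exact hnil _ _ (hleg.2.1 (by omega))
    have hj0 : j0 = 0 := by
      by_contra hcon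
      exact hnil _ _ (hleg.2.2.1 (by omega))
    subst hi0; subst hj0
    have h1 := hst i j
    rw [List.nil_append] at h1
    rw [h1, hw_onecell]
    constructor
    · rintro (h | h)
      · exact absurd h (hnil _ _)
      · omega
    · intro h; right; omega
  have hwd : Wd onecell := by
    unfold Wd onecell
    constructor <;> decide
  refine MoverLoses.mk [] (fun x _ => ?_) (fun x _ => ?_)
  · rw [List.nil_append]
    exact not_over hwd h1c (hH x)
  · rw [List.nil_append]
    exact (main S hS h1a h1b h1c h2a h2b _ onecell rfl hwd [x] (List.nodup_singleton x) (hH x)).2 hone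

end R464.MG
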