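import Pool.Agent.R464.MG.Words

/-!
MP_61ed4e_co: from the inductive definition of winning positions to an explicit strategy.
-/

namespace R464.MG

/-- The first `n` moves of the play `x`. -/
def pre (x : ℕ → ℚ) (n : ℕ) : List ℚ := (List.range n).map x

theorem pre_succ (x : ℕ → ℚ) (n : ℕ) : pre x (n + 1) = pre x n ++ [x n] := by
  unfold pre
  rw [List.range_succ, List.map_append, List.map_singleton]

/-- The second player has a winning strategy in the normal-play game `(a, d, ℚ)`. Moves are
numbered from `0`; the first player makes the even moves, the second player the odd moves,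
following the strategy `σ`, a function of the moves made so far. Whatever (legal) moves the first
player makes, all moves of the second player up to the end of the play are legal and the game ends
with a move of the second player. -/
def SecondWins (a d : ℕ) : Prop :=
  ∃ σ : List ℚ → ℚ, ∀ x : ℕ → ℚ, (∀ n, Even n → x n ∉ pre x n) →
    (∀ n, Odd n → x n = σ (pre x n)) →
    ∃ n, Odd n ∧ Over a d (pre x (n + 1)) ∧ (∀ m ≤ n, ¬ Over a d (pre x m)) ∧
      ∀ m ≤ n, Odd m → x m ∉ pre x m

open Classical in
theorem length_le (h1a : StmtR1a) (h1c : StmtR1c) (a d : ℕ) (ha : 1 ≤ a) (hd : 1 ≤ d) :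
    ∀ L : List ℚ, L.Nodup → ¬ Over a d L →
      L.length ≤ (((Finset.range (a - 1)) ×ˢ (Finset.range (d - 1))).filter
        (fun p => H L p.1 p.2)).card := by
  intro L
  induction L using List.reverseRecOn with
  | nil => intro _ _; simp
  | append_singleton L t ih =>
    intro hnd hov
    have hnd' : L.Nodup := (List.nodup_append.mp hnd).1
    have ht : t ∉ L := by
      intro h
      exact (List.nodup_append.mp hnd).2.2 t h t (by simp) rfl
    obtain ⟨i, j, hleg, hst⟩ := h1a L t hnd' ht
    rw [h1c _ a d ha hd] at hov
    push Not at hov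
    have hov' : ¬ Over a d L := by
      rw [h1c _ a d ha hd]
      push Not
      exact ⟨fun h => hov.1 ((hst _ _).mpr (Or.inl h)), fun h => hov.2 ((hst _ _).mpr (Or.inl h))⟩
    have hi : i < a - 1 := by
      by_contra hcon
      exact hov.1 ((hst _ _).mpr (Or.inr ⟨by omega, by omega⟩))
    have hj : j < d - 1 := by
      by_contra hcon
      exact hov.2 ((hst _ _).mpr (Or.inr ⟨by omega, by omega⟩))
    have h1 := ih hnd' hov'
    rw [List.length_append, List.length_singleton]
    refine Nat.succ_le_of_lt (lt_of_le_of_lt h1 (Finset.card_lt_card ?_))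
    rw [Finset.ssubset_iff_of_subset]
    · refine ⟨(i, j), ?_, ?_⟩
      · rw [Finset.mem_filter, Finset.mem_product, Finset.mem_range, Finset.mem_range]
        exact ⟨⟨hi, hj⟩, (hst _ _).mpr (Or.inr ⟨le_rfl, le_rfl⟩)⟩
      · rw [Finset.mem_filter]
        exact fun h => hleg.1 h.2
    · intro p hp
      rw [Finset.mem_filter] at hp ⊢
      exact ⟨hp.1, (hst _ _).mpr (Or.inl hp.2)⟩

/-- A good answer. -/
def Good (a d : ℕ) (L : List ℚ) (x : ℚ) : Prop :=
  x ∉ L ∧ (Over a d (L ++ [x]) ∨ (¬ Over a d (L ++ [x]) ∧ MoverLoses a d (L ++ [x])))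

theorem exists_good {a d : ℕ} {L : List ℚ} (h : MoverWins a d L) : ∃ x, Good a d L x := by
  cases h with
  | now _ x hx ho => exact ⟨x, hx, Or.inl ho⟩
  | later _ x hx ho hl => exact ⟨x, hx, Or.inr ⟨ho, hl⟩⟩

open Classical in
theorem secondWins_of (h1a : StmtR1a) (h1c : StmtR1c) (a d : ℕ) (ha : 2 ≤ a) (hd : 2 ≤ d)
    (h : MoverLoses a d []) : SecondWins a d := by
  refine ⟨fun L => if hL : ∃ x, Good a d L x then hL.choose else 0, ?_⟩
  intro x hx hσ
  by_contra hcon
  have key : ∀ k : ℕ, MoverLoses a d (pre x (2 * k)) ∧ (pre x (2 * k)).Nodup ∧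
      (∀ m ≤ 2 * k, ¬ Over a d (pre x m)) ∧ ∀ m < 2 * k, Odd m → x m ∉ pre x m := by
    intro k
    induction k with
    | zero =>
      refine ⟨h, List.nodup_nil, ?_, fun m hm => absurd hm (by omega)⟩
      intro m hm
      have : m = 0 := by omega
      subst this
      rintro (⟨s, hs, hl, -⟩ | ⟨s, hs, hl, -⟩)
      · have : s = [] := List.sublist_nil.mp hs
        subst this; simp at hl; omega
      · have : s = [] := List.sublist_nil.mp hs
        subst this; simp at hl; omega
    | succ k ih =>
      obtain ⟨h1, h2, h3, h4⟩ := ih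
      have hx1 := hx (2 * k) (even_two_mul k)
      have h5 : ¬ Over a d (pre x (2 * k + 1)) ∧ MoverWins a d (pre x (2 * k + 1)) := by
        rw [pre_succ]
        cases h1 with
        | mk _ g1 g2 => exact ⟨g1 _ hx1, g2 _ hx1⟩
      have hg := exists_good h5.2
      have hx2 : x (2 * k + 1) = hg.choose := by
        rw [hσ (2 * k + 1) (odd_two_mul_add_one k)]
        exact dif_pos hg
      have hgood : Good a d (pre x (2 * k + 1)) (x (2 * k + 1)) := by
        rw [hx2]; exact hg.choose_spec
      have hnd : ∀ (L : List ℚ) (t : ℚ), L.Nodup → t ∉ L → (L ++ [t]).Nodup := by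
        intro L t hL ht
        rw [List.nodup_append]
        exact ⟨hL, by simp, fun a ha b hb => by
          rw [List.mem_singleton] at hb; rintro rfl; exact ht (hb ▸ ha)⟩
      have hm1 : ∀ m ≤ 2 * k + 1, ¬ Over a d (pre x m) := by
        intro m hm
        rcases Nat.lt_or_ge (2 * k) m with hlt | hge
        · have : m = 2 * k + 1 := by omega
          rw [this]; exact h5.1
        · exact h3 m hge
      have hm2 : ∀ m ≤ 2 * k + 1, Odd m → x m ∉ pre x m := by
        intro m hm hodd
        rcases Nat.lt_or_ge m (2 * k) with hlt | hge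
        · exact h4 m hlt hodd
        · have : m = 2 * k + 1 := by
            rcases Nat.lt_or_ge (2 * k) m with h' | h'
            · omega
            · have : m = 2 * k := by omega
              rw [this] at hodd
              exact absurd hodd (by simp)
          rw [this]; exact hgood.1
      rcases hgood.2 with ho | ⟨ho, hl⟩
      · exfalso
        apply hcon
        refine ⟨2 * k + 1, odd_two_mul_add_one k, ?_, hm1, hm2⟩
        rw [pre_succ]; exact ho
      · have e : 2 * (k + 1) = 2 * k + 1 + 1 := by ring
        rw [e]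
        refine ⟨?_, ?_, ?_, ?_⟩
        · rw [pre_succ]; exact hl
        · rw [pre_succ]
          refine hnd _ _ ?_ hgood.1
          rw [pre_succ]
          exact hnd _ _ h2 hx1
        · intro m hm
          rcases Nat.lt_or_ge (2 * k + 1) m with hlt | hge
          · have : m = 2 * k + 1 + 1 := by omega
            rw [this, pre_succ]; exact ho
          · exact hm1 m hge
        · intro m hm hodd
          exact hm2 m (by omega) hodd
  have hfin := key ((a - 1) * (d - 1) + 1)
  have h1 := length_le h1a h1c a d (by omega) (by omega) _ hfin.2.1 (hfin.2.2.1 _ le_rfl)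
  have h2 : (((Finset.range (a - 1)) ×ˢ (Finset.range (d - 1))).filter
        (fun p => H (pre x (2 * ((a - 1) * (d - 1) + 1))) p.1 p.2)).card ≤ (a - 1) * (d - 1) := by
    refine (Finset.card_filter_le _ _).trans ?_
    rw [Finset.card_product, Finset.card_range, Finset.card_range]
  have h3 : (pre x (2 * ((a - 1) * (d - 1) + 1))).length = 2 * ((a - 1) * (d - 1) + 1) := by
    unfold pre; simp
  rw [h3] at h1
  omega

end R464.MG
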