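import Pool.Agent.R464.MG.Game

/-!
MP_61ed4e_co: diagrams and words (part R2).
-/

namespace R464.MG

theorem col_append (x z : List Bool) : ∀ i, col (x ++ z) i =
    if i < x.count false then col x i + z.count true else col z (i - x.count false) := by
  induction x with
  | nil => intro i; simp
  | cons b x ih =>
    intro i
    cases b with
    | true =>
      have : (true :: x).count false = x.count false := by simp
      rw [this, List.cons_append]
      simp only [col]
      exact ih i
    | false =>
      have : (false :: x).count false = x.count false + 1 := by simp
      rw [this, List.cons_append]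
      cases i with
      | zero => simp [col]
      | succ i =>
        simp only [col]
        rw [ih i]
        simp only [Nat.add_lt_add_iff_right, Nat.add_sub_add_right]

theorem cntF_rep_false (k : ℕ) : (List.replicate k false).count false = k := by
  simp
theorem cntF_rep_true (k : ℕ) : (List.replicate k true).count false = 0 := by
  simp [List.count_replicate]
theorem cntT_rep_true (k : ℕ) : (List.replicate k true).count true = k := by
  simp
theorem cntT_rep_false (k : ℕ) : (List.replicate k false).count true = 0 := by
  simp [List.count_replicate]

/-- column heights of `D :: R^k ++ v`. -/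
theorem col_DR (k : ℕ) (v : List Bool) (i : ℕ) :
    col (true :: (List.replicate k false ++ v)) i =
      if i < k then v.count true else col v (i - k) := by
  simp only [col]
  rw [col_append, cntF_rep_false, col_replicate, zero_add]

theorem col_RD (k : ℕ) (v : List Bool) (i : ℕ) :
    col (List.replicate k false ++ true :: v) i =
      if i < k then v.count true + 1 else col v (i - k) := by
  rw [col_append, cntF_rep_false, col_replicate, zero_add]
  simp only [List.count_cons_self, col]

theorem col_rep_true (k : ℕ) (z : List Bool) (i : ℕ) : col (List.replicate k true ++ z) i = col z i := by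
  rw [col_append, cntF_rep_true]
  simp

/-- column heights of `D^k ++ R :: v`. -/
theorem col_DkR (k : ℕ) (v : List Bool) (i : ℕ) :
    col (List.replicate k true ++ false :: v) i =
      if i = 0 then v.count true else col v (i - 1) := by
  rw [col_rep_true]
  cases i with
  | zero => simp [col]
  | succ i => simp [col]

theorem col_RDk (k : ℕ) (v : List Bool) (i : ℕ) :
    col (false :: (List.replicate k true ++ v)) i =
      if i = 0 then k + v.count true else col v (i - 1) := by
  cases i with
  | zero => simp [col]
  | succ i => simp only [col, col_rep_true]; simp

/-- effect of a move of the first kind. -/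
theorem effectA {u v : List Bool} {k : ℕ} (hk : 1 ≤ k) (i' j' : ℕ) :
    Hw (u ++ (List.replicate k false ++ true :: v)) i' j' ↔
      (Hw (u ++ true :: (List.replicate k false ++ v)) i' j' ∨
        (i' ≤ u.count false + k - 1 ∧ j' ≤ v.count true)) := by
  unfold Hw
  rw [col_append u, col_append u, col_DR, col_RD]
  have e1 : (List.replicate k false ++ true :: v).count true = v.count true + 1 := by
    rw [List.count_append, cntT_rep_false, List.count_cons_self]; omega
  have e2 : (true :: (List.replicate k false ++ v)).count true = v.count true + 1 := by
    rw [List.count_cons_self, List.count_append, cntT_rep_false]; omega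
  rw [e1, e2]
  split_ifs <;> omega

theorem effectB {u v : List Bool} {k : ℕ} (hk : 1 ≤ k) (i' j' : ℕ) :
    Hw (u ++ false :: (List.replicate k true ++ v)) i' j' ↔
      (Hw (u ++ (List.replicate k true ++ false :: v)) i' j' ∨
        (i' ≤ u.count false ∧ j' ≤ v.count true + k - 1)) := by
  unfold Hw
  rw [col_append u, col_append u, col_DkR, col_RDk]
  have e1 : (List.replicate k true ++ false :: v).count true = v.count true + k := by
    rw [List.count_append, cntT_rep_true]; simp; omega
  have e2 : (false :: (List.replicate k true ++ v)).count true = v.count true + k := by
    rw [List.count_cons_of_ne (by decide), List.count_append, cntT_rep_true]; omega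
  rw [e1, e2]
  split_ifs <;> omega

theorem wdA {u v : List Bool} {k : ℕ} (h : Wd (u ++ true :: (List.replicate k false ++ v))) :
    Wd (u ++ (List.replicate k false ++ true :: v)) := by
  obtain ⟨h1, h2⟩ := h
  constructor
  · simp at h1 ⊢; omega
  · simp at h2 ⊢; omega

theorem wdB {u v : List Bool} {k : ℕ} (h : Wd (u ++ (List.replicate k true ++ false :: v))) :
    Wd (u ++ false :: (List.replicate k true ++ v)) := by
  obtain ⟨h1, h2⟩ := h
  constructor
  · simp at h1 ⊢; omega
  · simp at h2 ⊢; omega

theorem split_at (w : List Bool) : ∀ i, i < w.count false →
    ∃ u v, w = u ++ false :: v ∧ u.count false = i := by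
  induction w with
  | nil => intro i hi; simp at hi
  | cons b w ih =>
    intro i hi
    cases b with
    | true =>
      obtain ⟨u, v, h1, h2⟩ := ih i (by simpa using hi)
      exact ⟨true :: u, v, by rw [h1]; rfl, by simpa using h2⟩
    | false =>
      cases i with
      | zero => exact ⟨[], w, rfl, rfl⟩
      | succ i =>
        obtain ⟨u, v, h1, h2⟩ := ih i (by simpa using hi)
        exact ⟨false :: u, v, by rw [h1]; rfl, by simpa using h2⟩

theorem last_letter (b : Bool) (u : List Bool) (hu : b ∈ u) :
    ∃ x k, u = x ++ b :: List.replicate k (!b) := by
  induction u using List.reverseRecOn with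
  | nil => simp at hu
  | append_singleton u c ih =>
    by_cases hc : c = b
    · exact ⟨u, 0, by rw [hc]; rfl⟩
    · have hc' : c = !b := by cases b <;> cases c <;> simp_all
      have hu' : b ∈ u := by
        rw [List.mem_append, List.mem_singleton] at hu
        rcases hu with h | h
        · exact h
        · exact absurd h.symm hc
      obtain ⟨x, k, hx⟩ := ih hu'
      refine ⟨x, k + 1, ?_⟩
      rw [hx, hc', List.replicate_succ']
      simp

theorem stmtR2a : StmtR2a := by
  intro w i j hw hleg hi hj
  obtain ⟨u, v, hwu, hui⟩ := split_at w i (by rw [count_false hw]; exact hi)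
  have hcoli : col w i = v.count true := by
    rw [hwu, col_append, hui, if_neg (lt_irrefl _), Nat.sub_self]; rfl
  have hcount : u.count true + v.count true = 9 := by
    have := hw.2
    rw [hwu] at this
    simp at this
    omega
  obtain ⟨h1, h2, h3, h4⟩ := hleg
  unfold Hw at h1 h2 h3 h4
  rw [hcoli] at h1 h4
  by_cases hjh : j = v.count true
  · -- case I
    have hD : true ∈ u := by
      rw [← List.count_pos_iff]; omega
    obtain ⟨x, k1, hx⟩ := last_letter true u hD
    rw [Bool.not_true] at hx
    have hw1 : w = x ++ true :: (List.replicate (k1 + 1) false ++ v) := by
      rw [hwu, hx, List.replicate_succ']; simp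
    have hcx : i = x.count false + (k1 + 1) - 1 := by
      rw [← hui, hx]
      simp [List.count_replicate]
    have hcond : true ∈ v ∨ k1 + 1 = 1 := by
      by_cases hk : k1 = 0
      · right; omega
      · left
        rw [← List.count_pos_iff]
        have h5 := h2 (by omega)
        rw [hw1, col_append, if_neg (by omega), col_DR] at h5
        have : i - 1 - x.count false < k1 + 1 := by omega
        rw [if_pos this] at h5
        exact h5
    refine ⟨x ++ (List.replicate (k1 + 1) false ++ true :: v), Or.inl ⟨x, v, k1 + 1, by omega, hw1,
      rfl, hcond⟩, ?_, ?_⟩
    · rw [hw1] at hw; exact wdA hw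
    · intro i' j'
      rw [effectA (by omega), hw1, hcx, hjh]
  · -- case II
    have hjh' : v.count true < j := by omega
    have hi1 : 1 ≤ i := by
      by_contra hcon
      have hi0 : i = 0 := by omega
      have := h3 (by omega)
      rw [hi0] at hcoli
      omega
    have h5 := h4 hi1 (by omega)
    have h6 : j < col w (i - 1) := by
      rcases h5 with h5 | h5
      · omega
      · exact h5
    have hR : false ∈ u := by
      rw [← List.count_pos_iff]; omega
    obtain ⟨x, e, hx⟩ := last_letter false u hR
    rw [Bool.not_false] at hx
    have hxi : x.count false = i - 1 := by
      rw [hx] at hui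
      simp [List.count_replicate] at hui
      omega
    have h7 : col w (i - 1) = e + v.count true := by
      rw [hwu, hx, List.append_assoc, List.cons_append, col_append, hxi, if_neg (lt_irrefl _),
        Nat.sub_self]
      simp [col]
    obtain ⟨k2, hk2⟩ : ∃ k2, j = v.count true + k2 := ⟨j - v.count true, by omega⟩
    obtain ⟨e', he'⟩ : ∃ e', e = e' + (k2 + 1) := ⟨e - (k2 + 1), by omega⟩
    have hw1 : w = (x ++ false :: List.replicate e' true) ++
        (List.replicate (k2 + 1) true ++ false :: v) := by
      rw [hwu, hx, he', List.replicate_add]
      simp only [List.append_assoc, List.cons_append]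
    have hcx : (x ++ false :: List.replicate e' true).count false = i := by
      simp [List.count_replicate]; omega
    refine ⟨(x ++ false :: List.replicate e' true) ++
      false :: (List.replicate (k2 + 1) true ++ v), Or.inr ⟨_, v, k2 + 1, by omega, hw1, rfl,
        Or.inl (by simp)⟩, ?_, ?_⟩
    · rw [hw1] at hw; exact wdB hw
    · intro i' j'
      rw [effectB (by omega), hw1, hcx, hk2, Nat.add_sub_assoc (by omega)]
      simp

theorem stmtR2b : StmtR2b := by
  intro w w' hw hm
  have hF := count_false hw
  rcases hm with ⟨u, v, k, hk, rfl, rfl, hcond⟩ | ⟨u, v, k, hk, rfl, rfl, hcond⟩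
  · refine ⟨wdA hw, u.count false + k - 1, v.count true, ⟨?_, ?_, ?_, ?_⟩, ?_, ?_,
      fun i' j' => effectA hk i' j'⟩
    · unfold Hw
      rw [col_append, col_DR]
      split_ifs <;> omega
    · intro h1
      unfold Hw
      rw [col_append, col_DR]
      have e2 : (true :: (List.replicate k false ++ v)).count true = v.count true + 1 := by
        rw [List.count_cons_self, List.count_append, cntT_rep_false]; omega
      rw [e2]
      rcases hcond with hc | hc
      · rw [← List.count_pos_iff] at hc
        split_ifs <;> omega
      · split_ifs <;> omega
    · intro h1
      unfold Hw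
      rw [col_append, col_DR]
      have e2 : (true :: (List.replicate k false ++ v)).count true = v.count true + 1 := by
        rw [List.count_cons_self, List.count_append, cntT_rep_false]; omega
      rw [e2]
      split_ifs <;> omega
    · intro h1 h2
      left
      unfold Hw
      rw [col_append, col_DR]
      split_ifs <;> omega
    · simp [List.count_replicate] at hF
      omega
    · have := hw.2
      simp [List.count_replicate] at this
      omega
  · have e1 : (List.replicate k true ++ false :: v).count true = v.count true + k := by
      rw [List.count_append, cntT_rep_true]; simp; omega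
    refine ⟨wdB hw, u.count false, v.count true + k - 1, ⟨?_, ?_, ?_, ?_⟩, ?_, ?_,
      fun i' j' => effectB hk i' j'⟩
    · unfold Hw
      rw [col_append, col_DkR]
      split_ifs <;> omega
    · intro h1
      unfold Hw
      rw [col_append, col_DkR, e1]
      split_ifs <;> omega
    · intro h1
      unfold Hw
      rw [col_append, col_DkR, e1]
      rcases hcond with hc | hc
      · rw [← List.count_pos_iff] at hc
        split_ifs <;> omega
      · split_ifs <;> omega
    · intro h1 h2
      right
      unfold Hw
      rw [col_append, col_DkR, e1]
      split_ifs <;> omega
    · simp [List.count_replicate] at hF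
      omega
    · have := hw.2
      simp [List.count_replicate] at this
      omega

end R464.MG
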